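import Pool.Agent.H30.VX.Targets

/-!
# Row GPR of vex_modules: a lower regular pair in every dense set
-/

set_option autoImplicit false

namespace Pool.Agent.H1.VX

open Finset Pool.Agent.H48.CE Pool.Agent.H30.VR Pool.Agent.H30.VX

theorem pf_GPR (hHLF : T_HLF) (hDEN : Pool.Agent.H30.VR.T_DEN) (hINC : T_INC) : T_GPR := by
  classical
  obtain ⟨g, hg⟩ : ∃ g : ℝ, g = 1 / 201 := ⟨_, rfl⟩
  have hg0 : 0 < g := by rw [hg]; norm_num
  obtain ⟨r, hr1, hr⟩ : ∃ r : ℕ, 40 / (g / 16) ≤ r ∧ 40 ≤ r := by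
    refine ⟨⌈40 / (g / 16)⌉₊ + 40, ?_, by omega⟩
    have := Nat.le_ceil (40 / (g / 16))
    push_cast
    linarith
  have hr0 : (0 : ℝ) < r := by exact_mod_cast (by omega : 0 < r)
  have hδ0 : 0 < g / 8 := by positivity
  obtain ⟨s, hs⟩ := pow_unbounded_of_one_lt (1 / (g / 8))
    (by have : 0 < 1 / (2 * (r : ℝ) ^ 2) := by positivity
        linarith : (1 : ℝ) < 1 + 1 / (2 * (r : ℝ) ^ 2))
  have hs1 : 1 < g / 8 * (1 + 1 / (2 * (r : ℝ) ^ 2)) ^ s := by
    rw [div_lt_iff₀ hδ0] at hs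
    linarith
  have hrs0 : 0 < r ^ s := pow_pos (by omega) s
  have hrs : (0 : ℝ) < (r : ℝ) ^ s := by positivity
  have hrs1 : (1 : ℝ) ≤ (r : ℝ) ^ s := by exact_mod_cast hrs0
  refine ⟨g / 16, g / (16 * (r : ℝ) ^ s), r, ⌈64 * (r : ℝ) ^ s / g⌉₊ + 1, by positivity,
    by rw [hg]; norm_num, by positivity, hr1, hr, ?_⟩
  intro k hk V _ G R hrun hR hee
  have hkg : 64 * (r : ℝ) ^ s ≤ g * k := by
    have h1 : 64 * (r : ℝ) ^ s / g ≤ (⌈64 * (r : ℝ) ^ s / g⌉₊ : ℝ) := Nat.le_ceil _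
    have h2 : ((⌈64 * (r : ℝ) ^ s / g⌉₊ : ℕ) : ℝ) ≤ k := by
      exact_mod_cast (by omega : ⌈64 * (r : ℝ) ^ s / g⌉₊ ≤ k)
    have h3 := le_trans h1 h2
    rw [div_le_iff₀ hg0] at h3
    linarith
  have hk0 : (0 : ℝ) < k := by
    have : 0 < k := by omega
    exact_mod_cast this
  obtain ⟨X, hX, Y, hY, hXY, hXYe⟩ := hHLF G R
  have hRc : (0 : ℝ) < R.card := by exact_mod_cast hR.card_pos
  have hbig : g * k * R.card < ee G X Y := by
    have h1 : ((k * R.card : ℕ) : ℝ) ≤ ((200 * ee G X Y : ℕ) : ℝ) := by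
      exact_mod_cast (by omega : k * R.card ≤ 200 * ee G X Y)
    push_cast at h1
    have h2 : 0 < (k : ℝ) * R.card := by positivity
    rw [hg]
    linarith
  set D : ℕ := ⌊g * k / 2⌋₊ with hD
  have hD1 : (D : ℝ) ≤ g * k / 2 := Nat.floor_le (by positivity)
  have hD2 : g * k / 2 < (D : ℝ) + 1 := Nat.lt_floor_add_one _
  have hD31 : (31 : ℝ) < (D : ℝ) + 0 + 1 := by linarith
  have hDge : 2 ≤ D := by
    have : (2 : ℝ) ≤ D := by linarith
    exact_mod_cast this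
  set q : ℕ := D / (2 * r ^ s) with hq
  have hq1 : (D : ℝ) < ((q : ℝ) + 1) * (2 * (r : ℝ) ^ s) := by
    have h1 := Nat.lt_div_mul_add (a := D) (b := 2 * r ^ s) (by positivity)
    have h2 : D < (q + 1) * (2 * r ^ s) := by
      rw [hq]
      linarith
    exact_mod_cast h2
  have hqge : g * k / (4 * (r : ℝ) ^ s) - 2 < q := by
    have h1 : g * k / 2 - 1 < ((q : ℝ) + 1) * (2 * (r : ℝ) ^ s) := by linarith
    have h2 : g * k / (4 * (r : ℝ) ^ s) = (g * k / 2) / (2 * (r : ℝ) ^ s) := by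
      field_simp
      ring
    have h3 : (g * k / 2) / (2 * (r : ℝ) ^ s) < (q : ℝ) + 2 := by
      rw [div_lt_iff₀ (by positivity)]
      nlinarith
    linarith
  have hgk16 : 16 ≤ g * k / (4 * (r : ℝ) ^ s) := by
    rw [le_div_iff₀ (by positivity)]
    linarith
  have hqpos : 1 ≤ q := by
    have : (1 : ℝ) ≤ q := by linarith
    exact_mod_cast this
  have hqγ : g / (16 * (r : ℝ) ^ s) * k ≤ q := by
    have h1 : g / (16 * (r : ℝ) ^ s) * k = g * k / (4 * (r : ℝ) ^ s) / 4 := by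
      field_simp
      ring
    rw [h1]
    linarith
  have hN : 2 * (r ^ s * q) ≤ D := by
    have := Nat.div_mul_le_self D (2 * r ^ s)
    rw [← hq] at this
    linarith
  have hee2 : 2 * D * (X.card + Y.card) < ee G X Y := by
    have h1 : X.card + Y.card ≤ R.card := by
      rw [← card_union_of_disjoint (Finset.disjoint_left.2 hXY)]
      exact Finset.card_le_card (union_subset hX hY)
    have h2 : ((2 * D * (X.card + Y.card) : ℕ) : ℝ) < ee G X Y := by
      push_cast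
      have h3 : ((X.card : ℝ) + Y.card) ≤ R.card := by exact_mod_cast h1
      have h4 : 2 * (D : ℝ) * (X.card + Y.card) ≤ (g * k) * R.card :=
        mul_le_mul (by linarith) h3 (by positivity) (by positivity)
      linarith
    exact_mod_cast h2
  obtain ⟨A, hA, B, hB, hAc, hBc, hden⟩ := hDEN G X Y k D (r ^ s * q) hrun hXY hDge hN hee2
  have hden2 : g / 8 * A.card * B.card ≤ ee G A B := by
    have h1 : ((D * (r ^ s * q) * (r ^ s * q) : ℕ) : ℝ) ≤ ((2 * k * ee G A B : ℕ) : ℝ) := by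
      exact_mod_cast hden
    rw [hAc, hBc]
    push_cast at h1 ⊢
    have h2 : g * k / 4 ≤ D := by linarith
    have hz : (0 : ℝ) ≤ ((r : ℝ) ^ s * q) * ((r : ℝ) ^ s * q) := by positivity
    have h3 := mul_le_mul_of_nonneg_right h2 hz
    have h4 : (2 * (k : ℝ)) * (g / 8 * ((r : ℝ) ^ s * q) * ((r : ℝ) ^ s * q)) ≤
        (2 * (k : ℝ)) * ee G A B := by linarith
    exact le_of_mul_le_mul_left h4 (by positivity)
  obtain ⟨t, ht1, ht2, A', hA', B', hB', hAc', hBc', hLR⟩ := hINC G r s q (g / 8) A B (by omega)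
    hqpos hδ0 hs1 hAc hBc hden2
  refine ⟨A', B', t, (hA'.trans hA).trans hX, (hB'.trans hB).trans hY, ⟨?_, hAc', hBc', ?_⟩, ?_,
    ?_⟩
  · intro v hv hv'
    exact hXY v (hA (hA' hv)) (hB (hB' hv'))
  · have e1 : g / 16 = g / 8 / 2 := by ring
    rw [e1]
    exact hLR
  · refine le_trans hqγ ?_
    exact_mod_cast ht1
  · have h1 : ((2 * (r * t) : ℕ) : ℝ) ≤ (D : ℝ) := by
      have : 2 * (r * t) ≤ D := by omega
      exact_mod_cast this
    have h2 : ((100 * (r * t) : ℕ) : ℝ) ≤ (k : ℝ) := by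
      push_cast at h1 ⊢
      rw [hg] at hD1
      linarith
    exact_mod_cast h2

end Pool.Agent.H1.VX
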