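import Pool.Agent.H30.VX.Targets
import Pool.Agent.H30.VR.Asm

/-!
# Row PCK of vex_modules: in a highly connected graph a packing gives a run
-/

set_option autoImplicit false

namespace Pool.Agent.H1.VX

open Finset Pool.Agent.H48.CE Pool.Agent.H30.VR Pool.Agent.H30.VX

theorem pf_PCK (hLNK : T_LNK) (hCNT : T_CNT) : T_PCK := by
  intro ε d γ b r T₀ hε hε1 hd hd1 hγ hb1 hb2 hb3
  obtain ⟨N, hN⟩ : ∃ N : ℕ, max (12 * T₀ * (r + 1) / (d * γ) + 1)
      (max (6 * T₀ * (1 / d + 3) / γ) (1 / γ)) ≤ (N : ℝ) :=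
    exists_nat_ge _
  refine ⟨max N 1, ?_⟩
  intro k hk V _ G' hCon hpack
  have hkN : (N : ℝ) ≤ k := by exact_mod_cast (le_max_left _ _).trans hk
  have hk1 : 1 ≤ k := (le_max_right _ _).trans hk
  have hkR : (1 : ℝ) ≤ k := by exact_mod_cast hk1
  have hN' := hN.trans hkN
  simp only [max_le_iff] at hN'
  obtain ⟨hc3, hc4, hc5⟩ := hN'
  obtain ⟨T, A, B, t, hTT, hAB, hdis, hsum⟩ := hpack
  -- the hub
  obtain ⟨M, rfl⟩ : ∃ M, T = M + 1 := by
    cases T with
    | zero =>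
      simp only [univ_eq_empty, sum_empty] at hsum
      have : 0 < (1 + ε / 8) * k := by positivity
      linarith
    | succ M => exact ⟨M, rfl⟩
  have hMT : (M : ℝ) ≤ T₀ := by exact_mod_cast (by omega : M ≤ T₀)
  have hM0 : (0 : ℝ) ≤ M := Nat.cast_nonneg _
  have hdγ : 0 < d * γ := by positivity
  have ht1 : ∀ i, (20 * t i : ℝ) ≤ d * (A i).card := by
    intro i
    obtain ⟨_, _, h3, _⟩ := hAB i
    exact aux_a hd hb3 (Nat.cast_nonneg _) (by exact_mod_cast h3)
  have ht2 : ∀ i, 6 * (2 * M) * (r + 1 : ℝ) < d * t i := by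
    intro i
    obtain ⟨_, _, _, _, h5, _⟩ := hAB i
    exact aux_b hMT (Nat.cast_nonneg _) hd hγ hc3 h5
  have ht3 : ∀ i, 3 * (2 * M) * (1 / d + 3) ≤ t i := by
    intro i
    obtain ⟨_, _, _, _, h5, _⟩ := hAB i
    exact aux_c hMT hd hγ hc4 h5
  have ht4 : ∀ i, 1 ≤ t i := by
    intro i
    obtain ⟨_, _, _, _, h5, _⟩ := hAB i
    rw [div_le_iff₀ hγ] at hc5
    have h6 : (1 : ℝ) ≤ t i := by linarith
    exact_mod_cast h6
  have hCon' : Con G' (2 * M) := hCon.mono (by omega)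
  obtain ⟨p, hp⟩ := hLNK G' M r d (fun i => A i.castSucc) (fun i => B i.castSucc)
    (fun i => t i.castSucc) (A (Fin.last M)) (B (Fin.last M)) (t (Fin.last M)) hCon' hd hd1
    (fun i => by
      obtain ⟨h1, h2, h3, h4, h5, h6, h7⟩ := hAB i.castSucc
      exact ⟨h1, h2, ht1 _, h4, h7, ht2 _, ht3 _⟩)
    (hAB _).1 (hAB _).2.1 (ht1 _) (hAB _).2.2.2.2.2.2 (ht3 _) (ht4 _)
    (fun i j hij v hv => hdis i.castSucc j.castSucc (by
      intro h
      exact hij (Fin.castSucc_injective _ h)) v hv)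
    (fun i v hv => hdis i.castSucc (Fin.last M) (Fin.castSucc_lt_last i).ne v hv)
  -- the numbers
  have hcard : ∀ i, 20 * t i ≤ (A i).card := by
    intro i
    have h1 := ht1 i
    have h2 : (0 : ℝ) ≤ (A i).card := Nat.cast_nonneg _
    have h3 : (20 * t i : ℝ) ≤ (A i).card := by nlinarith
    exact_mod_cast h3
  have hu : ∀ i, (1 - ε / 40) * ((A i).card : ℝ) ≤ (((A i).card - 20 * t i : ℕ) : ℝ) := by
    intro i
    rw [Nat.cast_sub (hcard i)]
    push_cast
    obtain ⟨_, _, h3, _⟩ := hAB i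
    exact aux_e hε hb2 (Nat.cast_nonneg _) (by exact_mod_cast h3)
  refine hCNT G' M k p (fun i => (A i.castSucc).card - 20 * t i.castSucc) ?_ ?_ ?_
  · intro I hI s hs
    refine hp I hI s fun i hi => ?_
    have h1 := hs i hi
    have h2 := hcard i.castSucc
    omega
  · intro j
    have h1 : ((k : ℕ) : ℝ) ≤ ((∑ i ∈ univ.erase j, ((A i.castSucc).card - 20 * t i.castSucc) : ℕ) : ℝ) := by
      rw [Nat.cast_sum]
      have h2 : ∑ i ∈ univ.erase j, (1 - ε / 40) * ((A i.castSucc).card : ℝ) ≤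
          ∑ i ∈ univ.erase j, (((A i.castSucc).card - 20 * t i.castSucc : ℕ) : ℝ) :=
        sum_le_sum fun i _ => hu _
      refine le_trans ?_ h2
      rw [← mul_sum]
      have h3 : ∑ i ∈ univ.erase j, ((A i.castSucc).card : ℝ) + ((A j.castSucc).card : ℝ) =
          ∑ i : Fin M, ((A i.castSucc).card : ℝ) := sum_erase_add _ _ (mem_univ j)
      rw [Fin.sum_univ_castSucc] at hsum
      have h4 := (hAB (Fin.last M)).2.2.2.2.2.1
      have h5 := (hAB j.castSucc).2.2.2.2.2.1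
      have h6 : (1 + ε / 8) * k - ε / 50 * k ≤ ∑ i ∈ univ.erase j, ((A i.castSucc).card : ℝ) := by
        linarith
      exact aux_f hε hε1 (by linarith) h6
    exact_mod_cast h1
  · by_contra hM
    have hM' : M = 0 := by omega
    subst hM'
    rw [Fin.sum_univ_castSucc] at hsum
    have h4 := (hAB (Fin.last 0)).2.2.2.2.2.1
    simp only [univ_eq_empty, sum_empty, zero_add] at hsum
    exact aux_h hε hkR hε1 (hsum.trans h4)

end Pool.Agent.H1.VX
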