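import Pool.Agent.H30.VX.Targets

/-!
# Row TH2 of vex_modules: no core of type II
-/

set_option autoImplicit false

namespace Pool.Agent.H1.VX

open Finset Pool.Agent.H48.CE Pool.Agent.H30.VR Pool.Agent.H30.VX

theorem pf_TH2 (hGPR : T_GPR) (hL2 : T_L2) (hT2A : T_T2A) (hT2B : T_T2B) (hT2C : T_T2C)
    (hT2D : T_T2D) (hT2E : T_T2E) : T_TH2 := by
  classical
  obtain ⟨d, γ, r, k₁, hd, hd1, hγ, hr1, hr, hG⟩ := hGPR
  obtain ⟨N, hN⟩ : ∃ N : ℕ, max ((12 * (r + 1) + 1) / (d * γ))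
      (max (6 * (1 / d + 3) / γ) (2 / γ)) ≤ (N : ℝ) := exists_nat_ge _
  refine ⟨min (1 / 2000) γ, max (max k₁ 100000) N, lt_min (by norm_num) hγ, ?_⟩
  intro k hk V _ G W hCon hV hC2 hff
  have hk1 : k₁ ≤ k := ((le_max_left _ _).trans (le_max_left _ _)).trans hk
  have hk2 : 100000 ≤ k := ((le_max_right _ _).trans (le_max_left _ _)).trans hk
  have hkN : (N : ℝ) ≤ k := by exact_mod_cast (le_max_right _ _).trans hk
  have hN' := hN.trans hkN
  simp only [max_le_iff] at hN'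
  obtain ⟨hc1, hc2, hc3⟩ := hN'
  obtain ⟨ε, hε⟩ : ∃ ε : ℝ, ε = min (1 / 2000) γ := ⟨_, rfl⟩
  rw [← hε] at hC2
  have hε0 : 0 < ε := by rw [hε]; exact lt_min (by norm_num) hγ
  have hε1 : ε ≤ 1 / 2000 := by rw [hε]; exact min_le_left _ _
  have hε2 : ε ≤ γ := by rw [hε]; exact min_le_right _ _
  have hkR : (0 : ℝ) < k := by exact_mod_cast (by omega : 0 < k)
  obtain ⟨hW1, hW2⟩ := hC2
  obtain ⟨e, he⟩ : ∃ e : ℕ, e = ⌊ε * k⌋₊ := ⟨_, rfl⟩
  have he1 : (e : ℝ) ≤ ε * k := by rw [he]; exact Nat.floor_le (by positivity)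
  have he2 : ε * k < (e : ℝ) + 1 := by rw [he]; exact Nat.lt_floor_add_one _
  have he3 : 2000 * e ≤ k := by
    have h1 : ε * k ≤ 1 / 2000 * k := mul_le_mul_of_nonneg_right hε1 hkR.le
    have h2 : (2000 * e : ℝ) ≤ k := by linarith
    exact_mod_cast h2
  have hNC : NC G e W := by
    intro w hw
    have h1 := hW2 w hw
    have h2 : ((W.card : ℕ) : ℝ) < (((nb G W w).card + e + 1 : ℕ) : ℝ) := by
      push_cast
      linarith
    have h3 : W.card < (nb G W w).card + e + 1 := by exact_mod_cast h2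
    omega
  have hWe : 2 * k ≤ W.card + e := by
    have h2 : ((2 * k : ℕ) : ℝ) < ((W.card + e + 1 : ℕ) : ℝ) := by
      push_cast
      have h3 : (2 - ε) * k = 2 * k - ε * k := by ring
      linarith
    have h3 : 2 * k < W.card + e + 1 := by exact_mod_cast h2
    omega
  obtain ⟨b, hb⟩ : ∃ b : ℕ, b = k / 100 + 1 := ⟨_, rfl⟩
  have hb1 : k ≤ 100 * b := by omega
  have hb2 : 100 * b ≤ k + 100 := by omega
  obtain ⟨L, hL⟩ : ∃ L : Finset V, L = univ.filter (fun v => v ∉ W ∧ b ≤ (nb G W v).card) :=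
    ⟨_, rfl⟩
  obtain ⟨R, hR⟩ : ∃ R : Finset V, R = univ.filter (fun v => v ∉ W ∧ ¬ b ≤ (nb G W v).card) :=
    ⟨_, rfl⟩
  have hLm : ∀ v ∈ L, v ∉ W ∧ b ≤ (nb G W v).card := by
    intro v hv
    rw [hL, mem_filter] at hv
    exact hv.2
  have hRm : ∀ v ∈ R, v ∉ W ∧ ¬ b ≤ (nb G W v).card := by
    intro v hv
    rw [hR, mem_filter] at hv
    exact hv.2
  have hall : ∀ v, v ∈ W ∨ v ∈ L ∨ v ∈ R := by
    intro v
    rw [hL, hR, mem_filter, mem_filter]
    by_cases h1 : v ∈ W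
    · exact Or.inl h1
    · by_cases h2 : b ≤ (nb G W v).card
      · exact Or.inr (Or.inl ⟨mem_univ _, h1, h2⟩)
      · exact Or.inr (Or.inr ⟨mem_univ _, h1, h2⟩)
  have hdW : ∀ v ∈ W, v ∉ L ∧ v ∉ R := fun v hv =>
    ⟨fun h => (hLm v h).1 hv, fun h => (hRm v h).1 hv⟩
  have hdL : ∀ v ∈ L, v ∉ R := fun v hv h => (hRm v h).2 (hLm v hv).2
  have hRb : ∀ v ∈ R, (nb G W v).card < b := fun v hv => not_le.1 (hRm v hv).2
  have hcardV : Fintype.card V = W.card + L.card + R.card := by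
    have h1 : (univ : Finset V) = (W ∪ L) ∪ R := by
      ext v
      simp only [mem_univ, mem_union, true_iff]
      rcases hall v with h | h | h
      · exact Or.inl (Or.inl h)
      · exact Or.inl (Or.inr h)
      · exact Or.inr h
    rw [← Finset.card_univ, h1, card_union_of_disjoint, card_union_of_disjoint]
    · exact disjoint_left.2 fun v hv => (hdW v hv).1
    · rw [disjoint_left]
      intro v hv
      rw [mem_union] at hv
      rcases hv with h | h
      · exact (hdW v h).2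
      · exact hdL v h
  by_contra hrun
  have hWL : W.card + L.card ≤ 2 * k + 1 := by
    by_contra h
    exact hrun (hT2A G W L k e b hNC hWe he3 hk2 hb1 hLm (by omega))
  have hRR : 50 * ee G R R ≤ k * R.card := by
    by_contra h
    have hRne : R.Nonempty := by
      rw [Finset.nonempty_iff_ne_empty]
      rintro rfl
      apply h
      simp [ee]
    obtain ⟨A, B, t, hA, hB, hLP, ht, hrt⟩ := hG k hk1 G R hrun hRne (by omega)
    have ht2 : (2 : ℝ) ≤ t := by
      rw [div_le_iff₀ hγ] at hc3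
      linarith
    have ht2' : 2 ≤ t := by exact_mod_cast ht2
    apply hrun
    refine hL2 G W A B d r t k e hCon hNC hLP
      (fun v hv => ⟨fun h => (hRm v (hA h)).1 hv, fun h => (hRm v (hB h)).1 hv⟩) hd hd1 ht2'
      ?_ ?_ ?_ ?_ ?_
    · rw [div_le_iff₀ hd] at hr1
      linarith
    · rw [div_le_iff₀ (mul_pos hd hγ)] at hc1
      have h1 : d * (γ * k) ≤ d * t := mul_le_mul_of_nonneg_left ht hd.le
      have h2 : (k : ℝ) * (d * γ) = d * (γ * k) := by ring
      linarith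
    · rw [div_le_iff₀ hγ] at hc2
      linarith
    · omega
    · have h1 : (e : ℝ) ≤ t := by
        have : ε * k ≤ γ * k := mul_le_mul_of_nonneg_right hε2 hkR.le
        linarith
      have h2 : e ≤ t := by exact_mod_cast h1
      have h3 : 40 * t ≤ r * t := Nat.mul_le_mul_right t hr
      omega
  have hs : 20 * (Fintype.card V - 2 * k - 1) ≤ k :=
    hT2B G W L R k e b hall hdW hdL hWe hWL he3 hk2 hb2 hRb hRR hff hV
  rcases Nat.eq_zero_or_pos (2 * k + 1 - W.card - L.card) with ha | ha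
  · apply hrun
    refine hT2C G W L R k e b hCon hNC hall (fun v hv => ⟨(hRm v hv).1, fun h => hdL v h hv⟩) hLm
      hWe (by omega) he3 hk2 hb1 ?_ (by omega)
    rw [← Finset.card_pos]
    omega
  · obtain ⟨a, ha'⟩ : ∃ a, a = 2 * k + 1 - W.card - L.card := ⟨_, rfl⟩
    rw [← ha'] at ha
    obtain ⟨R₀, hR₀, hR₀c, hR₀n⟩ := hT2D G W L R k e b a hall hdW hdL hWe (by omega) ha he3 hk2
      hb2 hRb hff hV hs
    apply hrun
    exact hT2E G W L R₀ k e b a hNC hLm
      (fun v hv => ⟨(hRm v (hR₀ hv)).1, fun h => hdL v h (hR₀ hv)⟩) hWe (by omega) ha he3 hk2 hb1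
      hR₀c hR₀n

end Pool.Agent.H1.VX
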